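import Pool.Agent.helper48.AGR.Spec

/-!
# Row AG/SC: a finitely generated torsion free group containing a free group of infinite rank
with conjugate generators
-/

set_option autoImplicit false

namespace Pool.Agent.AGR

open Monoid Function

/-- the shift of the free group on the integers -/
noncomputable def SCsh : MulAut (FreeGroup ℤ) := FreeGroup.freeGroupCongr (Equiv.addRight (1 : ℤ))

theorem SCsh_of (k : ℤ) : SCsh (FreeGroup.of k) = FreeGroup.of (k + 1) := by
  unfold SCsh
  simp [FreeGroup.freeGroupCongr]

theorem SCsh_pow (i : ℕ) (k : ℤ) : (SCsh ^ i) (FreeGroup.of k) = FreeGroup.of (k + i) := by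
  induction i generalizing k with
  | zero => simp
  | succ i ih =>
    rw [pow_succ, MulAut.mul_apply, SCsh_of, ih]
    congr 1
    push_cast
    ring

/-- the action of the integers -/
noncomputable def SCact : Multiplicative ℤ →* MulAut (FreeGroup ℤ) :=
  zpowersHom (MulAut (FreeGroup ℤ)) SCsh

theorem SCact_of (i : ℕ) :
    SCact (Multiplicative.ofAdd (1 : ℤ) ^ i) (FreeGroup.of 0) = FreeGroup.of (i : ℤ) := by
  rw [map_pow]
  have h : SCact (Multiplicative.ofAdd (1 : ℤ)) = SCsh := by
    unfold SCact
    simp [zpowersHom_apply]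
  rw [h, SCsh_pow, zero_add]

theorem SC : SC_stmt := by
  classical
  have hinj : Injective (FreeGroup.map (Nat.cast : ℕ → ℤ)) := by
    have hl : LeftInverse (FreeGroup.map (Int.toNat : ℤ → ℕ)) (FreeGroup.map (Nat.cast : ℕ → ℤ)) := by
      intro x
      rw [FreeGroup.map.comp]
      have : (Int.toNat ∘ (Nat.cast : ℕ → ℤ)) = id := by
        funext n
        simp
      rw [this, FreeGroup.map.id]
    exact hl.injective
  refine ⟨SemidirectProduct (FreeGroup ℤ) (Multiplicative ℤ) SCact, inferInstance,
    SemidirectProduct.inl.comp (FreeGroup.map (Nat.cast : ℕ → ℤ)),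
    {SemidirectProduct.inl (FreeGroup.of 0), SemidirectProduct.inr (Multiplicative.ofAdd (1 : ℤ))},
    ?_, ?_, ?_, ?_⟩
  · have : Countable (FreeGroup ℤ) := by
      unfold FreeGroup
      infer_instance
    exact (SemidirectProduct.equivProd (φ := SCact)).injective.countable
  · intro x y h
    exact hinj (SemidirectProduct.inl_injective h)
  · intro x n hn h
    have h1 : x.right ^ n = 1 := by
      have := congrArg SemidirectProduct.rightHom h
      rw [map_pow, map_one] at this
      exact this
    have h2 : x.right = 1 := by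
      have : x.right ^ n = 1 ^ n := by rw [h1, one_pow]
      exact pow_left_injective hn this
    have h3 : x = SemidirectProduct.inl x.left := by
      have := SemidirectProduct.inl_left_mul_inr_right x
      rw [h2, map_one, mul_one] at this
      exact this.symm
    rw [h3, ← map_pow] at h
    have h4 : x.left ^ n = 1 := by
      apply SemidirectProduct.inl_injective (φ := SCact)
      rw [h, map_one]
    have h5 : x.left = 1 := by
      have : x.left ^ n = 1 ^ n := by rw [h4, one_pow]
      exact pow_left_injective hn this
    rw [h3, h5, map_one]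
  · have key : ∀ i : ℕ, (SemidirectProduct.inr (Multiplicative.ofAdd (1 : ℤ)) ^ i *
        SemidirectProduct.inl (FreeGroup.of 0) *
        (SemidirectProduct.inr (Multiplicative.ofAdd (1 : ℤ)) ^ i)⁻¹ :
          SemidirectProduct (FreeGroup ℤ) (Multiplicative ℤ) SCact) =
        SemidirectProduct.inl (FreeGroup.of (i : ℤ)) := by
      intro i
      rw [← SCact_of i, SemidirectProduct.inl_aut, map_pow, map_inv, map_pow]
    set E : Set (SemidirectProduct (FreeGroup ℤ) (Multiplicative ℤ) SCact) :=
      (({SemidirectProduct.inl (FreeGroup.of 0), SemidirectProduct.inr (Multiplicative.ofAdd (1 : ℤ))} :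
        Finset (SemidirectProduct (FreeGroup ℤ) (Multiplicative ℤ) SCact)) :
          Set (SemidirectProduct (FreeGroup ℤ) (Multiplicative ℤ) SCact)) with hE
    have ha : (SemidirectProduct.inl (FreeGroup.of 0) :
        SemidirectProduct (FreeGroup ℤ) (Multiplicative ℤ) SCact) ∈ Subgroup.closure E :=
      Subgroup.subset_closure (by rw [hE]; simp)
    have hb : (SemidirectProduct.inr (Multiplicative.ofAdd (1 : ℤ)) :
        SemidirectProduct (FreeGroup ℤ) (Multiplicative ℤ) SCact) ∈ Subgroup.closure E :=
      Subgroup.subset_closure (by rw [hE]; simp)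
    have hval : ∀ i : ℕ, (SemidirectProduct.inl.comp (FreeGroup.map (Nat.cast : ℕ → ℤ)) :
        FreeGroup ℕ →* SemidirectProduct (FreeGroup ℤ) (Multiplicative ℤ) SCact)
        (FreeGroup.of i) = SemidirectProduct.inl (FreeGroup.of (i : ℤ)) := by
      intro i
      simp
    refine ⟨fun i => ?_, fun i => ?_⟩
    · rw [hval, ← key i]
      exact Subgroup.mul_mem _ (Subgroup.mul_mem _ (Subgroup.pow_mem _ hb i) ha)
        (Subgroup.inv_mem _ (Subgroup.pow_mem _ hb i))
    · refine ⟨SemidirectProduct.inr (Multiplicative.ofAdd (1 : ℤ)) ^ i,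
        Subgroup.pow_mem _ hb i, ?_⟩
      rw [hval, hval, ← key i]
      simp

end Pool.Agent.AGR
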